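import Pool.Agent.NumIndex.Upper

set_option autoImplicit false

namespace Pool.Agent.Results.MP_6da9ed_an.UltrapowerDrop

open Filter Pool.Agent.NumIndex

/-- **Main theorem.** There is a real Banach space `X` with numerical index at least `1/7` such
that for every free ultrafilter `U` on `ℕ` the ultrapower `X_U` has numerical index `0`. In
particular `n(X_U) ≠ n(X)`. -/
theorem result : ∃ (X : Type) (_ : NormedAddCommGroup X) (_ : NormedSpace ℝ X)
    (_ : CompleteSpace X), 1 / 7 ≤ numIndex ℝ X ∧
      ∀ U : Ultrafilter ℕ, (U : Filter ℕ) ≤ cofinite → numIndex ℝ (Ultrapower ℝ X U) = 0 :=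
  exists_counterexample

end Pool.Agent.Results.MP_6da9ed_an.UltrapowerDrop
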